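import Pool.Agent.W264.Yor.Chain

set_option autoImplicit false

/-!
Comparison of the additivities and of the cofinalities of two Yorioka ideals.
-/

namespace Pool.Agent.W264.Yor

open Filter Set MeasureTheory TopologicalSpace Cardinal
open Pool.Agent.H31R3.Yor

/-- Coding of the members of `I f`, whose rates are controlled by `ψ`, by a function. -/
theorem decode {f : ℕ → ℕ} (hf : StrictMono f) (ψ : ℕ → ℕ) :
    ∃ (cod : (ℕ → List Bool) → ℕ → ℕ) (D : (ℕ → Finset ℕ) → Set K),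
      (∀ σ k, cod σ k < 2 ^ (2 ^ k * f (2 ^ (k * k)))) ∧ (∀ S, D S ∈ I f) ∧
      ∀ σ S, (∀ᶠ n in atTop, ∀ i ≥ 2 ^ ψ n, f (i ^ n) ≤ (σ i).length) →
        (∀ᶠ k in atTop, (S k).card ≤ 2 ^ k) → (∀ᶠ k in atTop, cod σ k ∈ S k) →
        Linf σ ⊆ D S := by
  classical
  let ψ' : ℕ → ℕ := fun n => n + ∑ i ∈ Finset.range (n + 1), ψ i
  have hψ' : ∀ n, ψ n ≤ ψ' n := by
    intro n
    have : ψ n ≤ ∑ i ∈ Finset.range (n + 1), ψ i :=
      Finset.single_le_sum (f := ψ) (fun i _ => Nat.zero_le _)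
        (Finset.mem_range.2 (Nat.lt_succ_self n))
    simp only [ψ']; omega
  let ρ : ℕ → ℕ := fun k => Nat.findGreatest (fun n => ψ' n ≤ k) k
  have hρk : ∀ k, ρ k ≤ k := fun k => Nat.findGreatest_le k
  have hρ1 : ∀ k, ρ k ≠ 0 → ψ' (ρ k) ≤ k := fun k hk =>
    Nat.findGreatest_of_ne_zero (P := fun n => ψ' n ≤ k) rfl hk
  have hρt : Tendsto ρ atTop atTop := by
    refine tendsto_atTop_atTop.2 fun b => ⟨ψ' b + b, fun k hk => ?_⟩
    exact Nat.le_findGreatest (by omega) (by omega)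
  let lam : ℕ → ℕ := fun k => f (2 ^ (k * ρ k))
  have hlam : ∀ k, lam k ≤ f (2 ^ (k * k)) := fun k =>
    hf.monotone (Nat.pow_le_pow_right (by norm_num) (Nat.mul_le_mul_left _ (hρk k)))
  let cod : (ℕ → List Bool) → ℕ → ℕ := fun σ k =>
    Nat.ofBits (fun b : Fin (2 ^ k * lam k) =>
      (σ (2 ^ k + (b : ℕ) / lam k)).getD ((b : ℕ) % lam k) false)
  let τ : (ℕ → Finset ℕ) → ℕ → List Bool := fun S m =>
    tk (fun j => ((S (Nat.log 4 m)).toList.getD ((m - 4 ^ (Nat.log 4 m)) / 2 ^ (Nat.log 4 m)) 0).testBit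
      ((m - 4 ^ (Nat.log 4 m)) % 2 ^ (Nat.log 4 m) * lam (Nat.log 4 m) + j)) (lam (Nat.log 4 m))
  refine ⟨cod, fun S => Linf (τ S), ?_, ?_, ?_⟩
  · intro σ k
    exact lt_of_lt_of_le (Nat.ofBits_lt_two_pow _)
      (Nat.pow_le_pow_right (by norm_num) (Nat.mul_le_mul_left _ (hlam k)))
  · intro S
    refine ⟨τ S, ?_, Subset.rfl⟩
    intro n
    have hlog : Tendsto (fun m => Nat.log 4 m) atTop atTop := by
      refine tendsto_atTop_atTop.2 fun b => ⟨4 ^ b, fun m hm => ?_⟩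
      exact Nat.le_log_of_pow_le (by norm_num) hm
    filter_upwards [hlog.eventually (hρt.eventually_ge_atTop (4 * n)),
      hlog.eventually_ge_atTop 1] with m hm hm1
    simp only [τ, length_tk, lam]
    apply hf.monotone
    set k := Nat.log 4 m
    have h1 : m < 4 ^ (k + 1) := Nat.lt_pow_succ_log_self (by norm_num) m
    calc m ^ n ≤ (4 ^ (k + 1)) ^ n := Nat.pow_le_pow_left h1.le n
      _ = 2 ^ (2 * ((k + 1) * n)) := by
        rw [show (4 : ℕ) = 2 ^ 2 by norm_num, ← pow_mul, ← pow_mul]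
      _ ≤ 2 ^ (k * ρ k) := by
        apply Nat.pow_le_pow_right (by norm_num)
        calc 2 * ((k + 1) * n) ≤ k * (4 * n) := by nlinarith
          _ ≤ k * ρ k := Nat.mul_le_mul_left _ hm
  · intro σ S hσ hS hmem z hz
    obtain ⟨n0, hn0⟩ := eventually_atTop.1 hσ
    obtain ⟨k0, hk0⟩ := eventually_atTop.1 ((hS.and hmem).and
      (hρt.eventually_ge_atTop (n0 + 1)))
    have hz' : ∃ᶠ n in atTop, Pre (σ n) z := hz
    show ∃ᶠ m in atTop, Pre (τ S m) z
    rw [frequently_atTop] at hz' ⊢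
    intro M
    obtain ⟨i, hi, hpre⟩ := hz' (2 ^ (k0 + M + 1))
    set k := Nat.log 2 i with hk
    have hkk : k0 + M + 1 ≤ k := Nat.le_log_of_pow_le (by norm_num) hi
    have hi0 : i ≠ 0 := by
      have : 0 < 2 ^ (k0 + M + 1) := by positivity
      omega
    have hi1 : 2 ^ k ≤ i := Nat.pow_log_le_self 2 hi0
    have hi2 : i < 2 ^ (k + 1) := Nat.lt_pow_succ_log_self (by norm_num) i
    obtain ⟨i', hii⟩ := Nat.exists_eq_add_of_le hi1
    have hi' : i' < 2 ^ k := by rw [pow_succ] at hi2; omega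
    obtain ⟨⟨hcard, hcm⟩, hρn⟩ := hk0 k (by omega)
    set c := cod σ k with hc
    set ix := (S k).toList.idxOf c with hix
    have hixl : ix < (S k).toList.length := List.idxOf_lt_length_iff.2 (Finset.mem_toList.2 hcm)
    have hix2 : ix < 2 ^ k := by
      rw [Finset.length_toList] at hixl; omega
    have hr : ix * 2 ^ k + i' < 4 ^ k := by
      have h4 : (4 : ℕ) ^ k = 2 ^ k * 2 ^ k := by
        rw [show (4 : ℕ) = 2 * 2 by norm_num, mul_pow]
      rw [h4]
      calc ix * 2 ^ k + i' < ix * 2 ^ k + 2 ^ k := by omega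
        _ = (ix + 1) * 2 ^ k := by ring
        _ ≤ 2 ^ k * 2 ^ k := Nat.mul_le_mul_right _ hix2
    set m := 4 ^ k + (ix * 2 ^ k + i') with hm
    have hlog : Nat.log 4 m = k := by
      rw [Nat.log_eq_iff (Or.inr ⟨by norm_num, by positivity⟩)]
      constructor
      · omega
      · rw [pow_succ]; omega
    refine ⟨m, ?_, ?_⟩
    · have h1 : k < 4 ^ k := Nat.lt_pow_self (by norm_num)
      omega
    · have hms : m - 4 ^ k = ix * 2 ^ k + i' := by omega
      have hdiv : (m - 4 ^ k) / 2 ^ k = ix := by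
        rw [hms, mul_comm, Nat.mul_add_div (by positivity), Nat.div_eq_of_lt hi']; omega
      have hmod : (m - 4 ^ k) % 2 ^ k = i' := by
        rw [hms, mul_comm, Nat.mul_add_mod, Nat.mod_eq_of_lt hi']
      have hget : (S k).toList.getD ix 0 = c := by
        rw [List.getD_eq_getElem _ _ hixl]
        exact List.getElem_idxOf _
      have hlen : lam k ≤ (σ i).length := by
        have h1 : ψ' (ρ k) ≤ k := hρ1 k (by omega)
        have h2 := hn0 (ρ k) (by omega) i (by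
          have h3 : 2 ^ ψ (ρ k) ≤ 2 ^ k :=
            Nat.pow_le_pow_right (by norm_num) ((hψ' _).trans h1)
          omega)
        refine le_trans (hf.monotone ?_) h2
        rw [pow_mul]
        exact Nat.pow_le_pow_left (by omega) _
      have hτ : τ S m = tk (fun j => c.testBit (i' * lam k + j)) (lam k) := by
        simp only [τ, hlog, hdiv, hmod, hget]
      rw [hτ]
      apply pre_tk
      intro j hj
      have hb : i' * lam k + j < 2 ^ k * lam k := by
        calc i' * lam k + j < i' * lam k + lam k := by omega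
          _ = (i' + 1) * lam k := by ring
          _ ≤ 2 ^ k * lam k := Nat.mul_le_mul_right _ hi'
      have hj0 : 0 < lam k := by omega
      show (cod σ k).testBit (i' * lam k + j) = z j
      simp only [cod]
      rw [Nat.testBit_ofBits_lt _ _ hb]
      have e1 : (i' * lam k + j) / lam k = i' := by
        rw [mul_comm, Nat.mul_add_div hj0, Nat.div_eq_of_lt hj]; omega
      have e2 : (i' * lam k + j) % lam k = j := by
        rw [mul_comm, Nat.mul_add_mod, Nat.mod_eq_of_lt hj]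
      simp only [e1, e2, ← hii]
      rw [List.getD_eq_getElem _ _ (by omega)]
      exact hpre j (by omega)

/-- the additivity calculus -/
def PA (ι : Type) (L W : ℕ → ℕ) : Prop := ∀ x : ι → ℕ → ℕ, (∀ i, ∀ᶠ n in atTop, x i n < L n) →
  ∃ S : ℕ → Finset ℕ, (∀ᶠ n in atTop, (S n).card ≤ W n) ∧ ∀ i, ∀ᶠ n in atTop, x i n ∈ S n

/-- the cofinality calculus -/
def PC (κ : Cardinal.{0}) (L W : ℕ → ℕ) : Prop := ∃ (Y : Type) (S : Y → ℕ → Finset ℕ),
  #Y ≤ κ ∧ (∀ y, ∀ᶠ n in atTop, (S y n).card ≤ W n) ∧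
    ∀ x : ℕ → ℕ, (∀ᶠ n in atTop, x n < L n) → ∃ y, ∀ᶠ n in atTop, x n ∈ S y n

/-- index of `a` in the list of the elements of `s` -/
noncomputable def ixx (s : Finset ℕ) (a : ℕ) : ℕ := if a ∈ s then s.toList.idxOf a else 0

theorem ixx_lt {s : Finset ℕ} {a : ℕ} (h : a ∈ s) : ixx s a < s.card := by
  rw [ixx, if_pos h, ← Finset.length_toList]
  exact List.idxOf_lt_length_iff.2 (Finset.mem_toList.2 h)

theorem getD_ixx {s : Finset ℕ} {a : ℕ} (h : a ∈ s) : s.toList.getD (ixx s a) 0 = a := by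
  have h1 := ixx_lt h
  rw [← Finset.length_toList] at h1
  rw [List.getD_eq_getElem _ _ h1]
  simp only [ixx, if_pos h]
  exact List.getElem_idxOf _

theorem calc_add {g : ℕ → ℕ} (hg : StrictMono g) {ι : Type} (h : #ι < add (I g)) :
    LocCalc g (PA ι) where
  base a ω ha hω := by
    obtain ⟨A, S, hA, hS, hloc⟩ := base_step hg a ω ha hω
    intro x hx
    have hB := add_spec (fun i : ι => A (x i)) (fun i => hA _) h
    exact ⟨S (⋃ i, A (x i)), Eventually.of_forall fun n => hS _ n,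
      fun i => hloc (x i) (hx i) _ hB (subset_iUnion (fun i => A (x i)) i)⟩
  comp L W W' h1 h2 := by
    classical
    intro x hx
    obtain ⟨S1, hS1, hm1⟩ := h1 x hx
    obtain ⟨S2, hS2, hm2⟩ := h2 (fun i n => ixx (S1 n) (x i n)) (by
      intro i
      filter_upwards [hS1, hm1 i] with n e1 e2
      exact lt_of_lt_of_le (ixx_lt e2) e1)
    refine ⟨fun n => (S2 n).image (fun k => (S1 n).toList.getD k 0), ?_, ?_⟩
    · filter_upwards [hS2] with n hn
      exact Finset.card_image_le.trans hn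
    · intro i
      filter_upwards [hm1 i, hm2 i] with n e1 e2
      exact Finset.mem_image.2 ⟨_, e2, getD_ixx e1⟩
  mono L W L' W' h1 hL hW := by
    intro x hx
    obtain ⟨S, hS, hm⟩ := h1 x (fun i => by
      filter_upwards [hx i, hL] with n e1 e2
      omega)
    refine ⟨S, ?_, hm⟩
    filter_upwards [hS, hW] with n e1 e2
    omega

theorem aleph0_le_cof {g : ℕ → ℕ} (hg : StrictMono g) : ℵ₀ ≤ cof (I g) := by
  obtain ⟨F, hF, hcof, hc⟩ := cof_spec (I g)
  rw [← hc]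
  by_contra hcon
  push Not at hcon
  have hfin : F.Finite := Cardinal.lt_aleph0_iff_set_finite.1 hcon
  have h1 : mu (⋃₀ F) = 0 := by
    rw [sUnion_eq_biUnion, measure_biUnion_null_iff hfin.countable]
    exact fun A hA => I_null hg (hF hA)
  have h2 : ⋃₀ F = Set.univ := by
    rw [eq_univ_iff_forall]
    intro z
    obtain ⟨B, hB, hzB⟩ := hcof {z} (singleton_mem_I hg z)
    exact ⟨B, hB, hzB rfl⟩
  rw [h2] at h1
  exact mu_univ_ne h1

theorem calc_cof {g : ℕ → ℕ} (hg : StrictMono g) : LocCalc g (PC (cof (I g))) where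
  base a ω ha hω := by
    obtain ⟨A, S, hA, hS, hloc⟩ := base_step hg a ω ha hω
    obtain ⟨F, hF, hcof, hc⟩ := cof_spec (I g)
    refine ⟨F, fun B => S B, hc.le, fun B => Eventually.of_forall fun n => hS _ n, ?_⟩
    intro x hx
    obtain ⟨B, hB, hAB⟩ := hcof _ (hA x)
    exact ⟨⟨B, hB⟩, hloc x hx B (hF hB) hAB⟩
  comp L W W' h1 h2 := by
    classical
    obtain ⟨Y1, S1, hY1, hS1, hm1⟩ := h1
    obtain ⟨Y2, S2, hY2, hS2, hm2⟩ := h2
    refine ⟨Y1 × Y2, fun y n => (S2 y.2 n).image (fun k => (S1 y.1 n).toList.getD k 0), ?_, ?_, ?_⟩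
    · rw [mk_prod, lift_id, lift_id]
      refine (mul_le_mul' hY1 hY2).trans ?_
      rw [mul_eq_self (aleph0_le_cof hg)]
    · intro y
      filter_upwards [hS2 y.2] with n hn
      exact Finset.card_image_le.trans hn
    · intro x hx
      obtain ⟨y1, hy1⟩ := hm1 x hx
      obtain ⟨y2, hy2⟩ := hm2 (fun n => ixx (S1 y1 n) (x n)) (by
        filter_upwards [hS1 y1, hy1] with n e1 e2
        exact lt_of_lt_of_le (ixx_lt e2) e1)
      refine ⟨⟨y1, y2⟩, ?_⟩
      filter_upwards [hy1, hy2] with n e1 e2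
      exact Finset.mem_image.2 ⟨_, e2, getD_ixx e1⟩
  mono L W L' W' h1 hL hW := by
    obtain ⟨Y, S, hY, hS, hm⟩ := h1
    refine ⟨Y, S, hY, fun y => ?_, fun x hx => hm x ?_⟩
    · filter_upwards [hS y, hW] with n e1 e2
      omega
    · filter_upwards [hx, hL] with n e1 e2
      omega

/-- thresholds for the rate of a member of the ideal -/
theorem exists_rate {f : ℕ → ℕ} {σ : ℕ → List Bool}
    (hσ : FarBelow f (fun n => (σ n).length)) :
    ∃ x : ℕ → ℕ, ∀ n, ∀ i ≥ 2 ^ x n, f (i ^ n) ≤ (σ i).length := by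
  choose x hx using fun n => eventually_atTop.1 (hσ n)
  refine ⟨x, fun n i hi => hx n i (le_trans Nat.lt_two_pow_self.le hi)⟩

theorem rate_mono {f : ℕ → ℕ} {σ : ℕ → List Bool} {x ψ : ℕ → ℕ}
    (hx : ∀ n, ∀ i ≥ 2 ^ x n, f (i ^ n) ≤ (σ i).length) (h : ∀ᶠ n in atTop, x n ≤ ψ n) :
    ∀ᶠ n in atTop, ∀ i ≥ 2 ^ ψ n, f (i ^ n) ≤ (σ i).length := by
  filter_upwards [h] with n hn i hi
  exact hx n i (le_trans (Nat.pow_le_pow_right (by norm_num) hn) hi)

/-- **Comparison of additivities.** -/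
theorem add_le_add {f g : ℕ → ℕ} (hf : StrictMono f) (hg : StrictMono g) (j : ℕ)
    (hfg : ∀ᶠ n in atTop, f n ≤ (fun m => g (2 ^ m))^[j] (g n)) : add (I g) ≤ add (I f) := by
  classical
  by_contra hcon
  push Not at hcon
  obtain ⟨F, hF, hFU, hFc⟩ := add_I_spec hf
  rw [← hFc] at hcon
  have hdata : ∀ A : F, ∃ (σ : ℕ → List Bool) (x : ℕ → ℕ), (A : Set K) ⊆ Linf σ ∧
      ∀ n, ∀ i ≥ 2 ^ x n, f (i ^ n) ≤ (σ i).length := by
    intro A
    obtain ⟨σ, hσ, hAσ⟩ := hF A.2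
    obtain ⟨x, hx⟩ := exists_rate hσ
    exact ⟨σ, x, hAσ, hx⟩
  choose σ x hσ hx using hdata
  obtain ⟨A0, ψ, hA0, hψ⟩ := dom_step hg
  have hB0 := add_spec (fun A : F => A0 (x A)) (fun A => hA0 _) hcon
  set ψ0 := ψ (⋃ A : F, A0 (x A)) with hψ0
  obtain ⟨cod, D, hcod, hD, hdec⟩ := decode hf ψ0
  have hreach := reach_final hg (calc_add hg hcon) f j hfg
  obtain ⟨S, hS1, hS2⟩ := hreach (fun A => cod (σ A)) (fun A => Eventually.of_forall fun k =>
    hcod _ _)
  apply hFU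
  refine I_mono (hD S) (sUnion_subset fun A hA => ?_)
  refine (hσ ⟨A, hA⟩).trans (hdec (σ ⟨A, hA⟩) S ?_ hS1 (hS2 ⟨A, hA⟩))
  exact rate_mono (hx ⟨A, hA⟩) (hψ (x ⟨A, hA⟩) _ hB0
    (subset_iUnion (fun A : F => A0 (x A)) ⟨A, hA⟩))

/-- **Comparison of cofinalities.** -/
theorem cof_le_cof {f g : ℕ → ℕ} (hf : StrictMono f) (hg : StrictMono g) (j : ℕ)
    (hfg : ∀ᶠ n in atTop, f n ≤ (fun m => g (2 ^ m))^[j] (g n)) : cof (I f) ≤ cof (I g) := by
  classical
  obtain ⟨A0, ψ, hA0, hψ⟩ := dom_step hg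
  obtain ⟨F, hF, hcof, hc⟩ := cof_spec (I g)
  choose cod D hcod hD hdec using fun ψ : ℕ → ℕ => decode hf ψ
  obtain ⟨Y, S, hY, hS1, hS2⟩ := reach_final hg (calc_cof hg) f j hfg
  let G : F × Y → Set K := fun q => D (ψ q.1) (S q.2)
  have h1 : cof (I f) ≤ #(range G) := by
    refine csInf_le' ⟨range G, ?_, ?_, rfl⟩
    · rintro _ ⟨q, rfl⟩
      exact hD _ _
    · intro A hA
      obtain ⟨σ, hσ, hAσ⟩ := hA
      obtain ⟨x, hx⟩ := exists_rate hσ
      obtain ⟨B, hB, hAB⟩ := hcof _ (hA0 x)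
      obtain ⟨y, hy⟩ := hS2 (cod (ψ B) σ) (Eventually.of_forall fun k => hcod _ _ _)
      refine ⟨_, ⟨⟨⟨B, hB⟩, y⟩, rfl⟩, hAσ.trans (hdec (ψ B) σ (S y) ?_ (hS1 y) hy)⟩
      exact rate_mono hx (hψ x B (hF hB) hAB)
  refine h1.trans (mk_range_le.trans ?_)
  rw [mk_prod, lift_id, lift_id, hc]
  refine (mul_le_mul' le_rfl hY).trans ?_
  rw [mul_eq_self (aleph0_le_cof hg)]

end Pool.Agent.W264.Yor
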