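import Pool.Agent.W264.Yor.Loc

set_option autoImplicit false

/-!
Composition of localization steps: an abstract calculus.
-/

namespace Pool.Agent.W264.Yor

open Filter Set

theorem eventually_pow_le (d : ℕ) : ∀ᶠ n : ℕ in atTop, n ^ d ≤ 2 ^ n := by
  have h := (tendsto_pow_const_div_const_pow_of_one_lt d
    (by norm_num : (1 : ℝ) < 2)).eventually (gt_mem_nhds one_pos)
  filter_upwards [h] with n hn
  rw [div_lt_one (by positivity)] at hn
  exact_mod_cast hn.le

theorem width_le (n v : ℕ) : (n + 1) * (n + 2 ^ v + 1) ^ n ≤ 2 ^ ((v + n + 2) * n) := by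
  have h1 : n + 1 ≤ 2 ^ n := Nat.lt_two_pow_self
  have h2 : n + 2 ^ v + 1 ≤ 2 ^ (v + n + 1) := by
    have h3 : 1 ≤ 2 ^ v := Nat.one_le_two_pow
    have h4 : 1 ≤ 2 ^ n := Nat.one_le_two_pow
    have h5 : 2 ^ (v + n + 1) = 2 * (2 ^ v * 2 ^ n) := by rw [pow_succ, pow_add]; ring
    rw [h5]
    nlinarith
  calc (n + 1) * (n + 2 ^ v + 1) ^ n ≤ 2 ^ n * (2 ^ (v + n + 1)) ^ n :=
        Nat.mul_le_mul h1 (Nat.pow_le_pow_left h2 n)
    _ = 2 ^ ((v + n + 2) * n) := by rw [← pow_mul, ← pow_add]; congr 1; ring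

/-- An abstract calculus of localization: `P L W` means that functions bounded by `L` can be
captured by slaloms of width `W`. -/
structure LocCalc (g : ℕ → ℕ) (P : (ℕ → ℕ) → (ℕ → ℕ) → Prop) : Prop where
  base : ∀ a ω : ℕ → ℕ, Tendsto a atTop atTop → Tendsto ω atTop atTop →
    P (fun n => 2 ^ (g (2 ^ a n) - a n)) (fun n => (n + 1) * (n + 2 ^ a n + 1) ^ ω n)
  comp : ∀ L W W', P L W → P W W' → P L W'
  mono : ∀ L W L' W', P L W → (∀ᶠ n in atTop, L' n ≤ L n) → (∀ᶠ n in atTop, W n ≤ W' n) → P L' W'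

variable {g : ℕ → ℕ} {P : (ℕ → ℕ) → (ℕ → ℕ) → Prop}

/-- functions bounded by `2 ^ u` can be captured with width `2 ^ n` -/
def Reach (P : (ℕ → ℕ) → (ℕ → ℕ) → Prop) (u : ℕ → ℕ) : Prop :=
  P (fun n => 2 ^ u n) (fun n => 2 ^ n)

theorem Reach.mono (h : LocCalc g P) {u u' : ℕ → ℕ} (hu : Reach P u)
    (h' : ∀ᶠ n in atTop, u' n ≤ u n) : Reach P u' :=
  h.mono _ _ _ _ hu (h'.mono fun _ hn => Nat.pow_le_pow_right (by norm_num) hn)
    (Eventually.of_forall fun _ => le_rfl)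

theorem Reach.step (h : LocCalc g P) {u v : ℕ → ℕ} (hu : Reach P u) (hv : Tendsto v atTop atTop)
    (huv : ∀ᶠ n in atTop, (v n + n + 2) * n ≤ u n) : Reach P (fun n => g (2 ^ v n) - v n) := by
  have h1 := h.base v id hv tendsto_id
  have h2 : P (fun n => (n + 1) * (n + 2 ^ v n + 1) ^ (id n)) (fun n => 2 ^ n) :=
    h.mono _ _ _ _ hu (huv.mono fun n hn =>
      (width_le n (v n)).trans (Nat.pow_le_pow_right (by norm_num) hn))
      (Eventually.of_forall fun _ => le_rfl)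
  exact h.comp _ _ _ h1 h2

theorem Reach.mul (hg : StrictMono g) (h : LocCalc g P) {u : ℕ → ℕ} (hu : Reach P u)
    (hu4 : ∀ᶠ n in atTop, n ^ 4 ≤ u n) : Reach P (fun n => 2 ^ n * u n) := by
  have hv16 : ∀ᶠ n in atTop, 16 * n ≤ u n / (n + 3) ^ 2 := by
    filter_upwards [hu4, eventually_ge_atTop 22] with n hn hn22
    rw [Nat.le_div_iff_mul_le (by positivity)]
    refine le_trans ?_ hn
    have h1 : 16 * (n + 3) ^ 2 ≤ n ^ 3 := by nlinarith
    calc 16 * n * (n + 3) ^ 2 = n * (16 * (n + 3) ^ 2) := by ring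
      _ ≤ n * n ^ 3 := Nat.mul_le_mul_left _ h1
      _ = n ^ 4 := by ring
  have hvt : Tendsto (fun n => u n / (n + 3) ^ 2) atTop atTop := by
    refine tendsto_atTop_mono' atTop ?_ tendsto_id
    filter_upwards [hv16] with n hn
    simp only [id]; omega
  have h1 := Reach.step h hu hvt (by
    filter_upwards [hu4, eventually_ge_atTop 3] with n hn hn3
    have e1 : u n / (n + 3) ^ 2 * (n + 3) ^ 2 ≤ u n := Nat.div_mul_le_self _ _
    set v := u n / (n + 3) ^ 2
    have e2 : v * n * 2 ≤ v * (n + 3) ^ 2 := by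
      rw [mul_assoc]; exact Nat.mul_le_mul_left _ (by nlinarith)
    have e3 : (n + 2) * n * 2 ≤ n ^ 4 := by
      have : n ^ 4 = n * n * (n * n) := by ring
      have h9 : n * n * 9 ≤ n * n * (n * n) := Nat.mul_le_mul_left _ (by nlinarith)
      rw [this]; nlinarith
    nlinarith)
  refine Reach.mono h h1 ?_
  filter_upwards [hv16, eventually_pow_le 3, eventually_ge_atTop 4] with n hn h3 hn4
  have e1 : u n < (u n / (n + 3) ^ 2 + 1) * (n + 3) ^ 2 := by
    have := Nat.lt_mul_div_succ (u n) (show 0 < (n + 3) ^ 2 by positivity)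
    rw [mul_comm]; exact this
  set v := u n / (n + 3) ^ 2
  have e2 : 2 ^ v ≤ g (2 ^ v) := hg.le_apply
  have e3 : v / 2 < 2 ^ (v / 2) := Nat.lt_two_pow_self
  have e4 : v + 1 ≤ 2 ^ (v / 2 + 1) := by rw [pow_succ]; omega
  have e5 : (n + 3) ^ 2 + 1 ≤ 2 ^ n := by
    refine le_trans ?_ h3
    have f1 : n ^ 3 = n * n * n := by ring
    have f2 : n * n * 4 ≤ n * n * n := Nat.mul_le_mul_left _ hn4
    rw [f1]; nlinarith
  have e6 : 2 ^ n * u n + v ≤ 2 ^ v := by
    calc 2 ^ n * u n + v ≤ 2 ^ n * ((v + 1) * ((n + 3) ^ 2 + 1)) := by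
          have : 1 ≤ 2 ^ n := Nat.one_le_two_pow
          nlinarith
      _ ≤ 2 ^ n * (2 ^ (v / 2 + 1) * 2 ^ n) :=
          Nat.mul_le_mul_left _ (Nat.mul_le_mul e4 e5)
      _ = 2 ^ (n + (v / 2 + 1 + n)) := by rw [← pow_add, ← pow_add]
      _ ≤ 2 ^ v := Nat.pow_le_pow_right (by norm_num) (by omega)
  omega

theorem Reach.iter (hg : StrictMono g) (h : LocCalc g P) {u : ℕ → ℕ} (hu : Reach P u)
    (hu4 : ∀ᶠ n in atTop, n ^ 4 ≤ u n) :
    Reach P (fun n => g (2 ^ u n)) ∧ ∀ᶠ n in atTop, n ^ 4 ≤ g (2 ^ u n) := by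
  have hut : Tendsto u atTop atTop := by
    refine tendsto_atTop_mono' atTop ?_ tendsto_id
    filter_upwards [hu4, eventually_ge_atTop 1] with n hn hn1
    exact le_trans (Nat.le_self_pow (by norm_num) n) hn
  have h1 := Reach.step h (Reach.mul hg h hu hu4) hut (by
    filter_upwards [hu4, eventually_ge_atTop 3] with n hn hn3
    have e1 : n + 1 ≤ 2 ^ n := Nat.lt_two_pow_self
    have e2 : (n + 2) * n ≤ n ^ 4 := by
      have : n ^ 4 = n * n * (n * n) := by ring
      have h9 : n * n * 9 ≤ n * n * (n * n) := Nat.mul_le_mul_left _ (by nlinarith)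
      rw [this]; nlinarith
    have e3 : (u n + n + 2) * n ≤ u n * (n + 1) := by nlinarith
    have e4 : u n * (n + 1) ≤ u n * 2 ^ n := Nat.mul_le_mul_left _ e1
    rw [mul_comm (2 ^ n)]
    exact e3.trans e4)
  have hkey : ∀ᶠ n in atTop, u n ≤ g (2 ^ u n) - u n := by
    filter_upwards [hut.eventually_ge_atTop 1] with n hn
    have e2 : 2 ^ u n ≤ g (2 ^ u n) := hg.le_apply
    have e3 : 2 * u n ≤ 2 ^ u n := by
      obtain ⟨c, hc⟩ := Nat.exists_eq_add_of_le hn
      have : c < 2 ^ c := Nat.lt_two_pow_self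
      rw [hc, Nat.add_comm 1 c, pow_succ]; omega
    omega
  have h2 := Reach.mul hg h h1 (by
    filter_upwards [hkey, hu4] with n e1 e2
    exact e2.trans e1)
  constructor
  · refine Reach.mono h h2 ?_
    filter_upwards [hkey, eventually_ge_atTop 1] with n e1 e2
    have e3 : 2 ≤ 2 ^ n := by
      calc 2 = 2 ^ 1 := by norm_num
        _ ≤ 2 ^ n := Nat.pow_le_pow_right (by norm_num) e2
    have e4 : 2 * (g (2 ^ u n) - u n) ≤ 2 ^ n * (g (2 ^ u n) - u n) := Nat.mul_le_mul_right _ e3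
    omega
  · filter_upwards [hkey, hu4] with n e1 e2
    omega

theorem reach_base (hg : StrictMono g) (h : LocCalc g P) : Reach P (fun n => n ^ 4) := by
  let q : ℕ → ℕ := fun n => Nat.sqrt (Nat.sqrt n)
  have hq : Tendsto q atTop atTop := by
    have h1 : Tendsto Nat.sqrt atTop atTop := by
      refine tendsto_atTop_atTop.2 fun b => ⟨b * b, fun a ha => Nat.le_sqrt.2 ha⟩
    exact h1.comp h1
  have hqn : ∀ n, q n ^ 4 ≤ n := by
    intro n
    have h1 : Nat.sqrt n * Nat.sqrt n ≤ n := Nat.sqrt_le n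
    have h2 : q n * q n ≤ Nat.sqrt n := Nat.sqrt_le _
    calc q n ^ 4 = (q n * q n) * (q n * q n) := by ring
      _ ≤ Nat.sqrt n * Nat.sqrt n := Nat.mul_le_mul h2 h2
      _ ≤ n := h1
  have hnq : ∀ n, n < (q n + 1) ^ 4 := by
    intro n
    have h1 : n < (Nat.sqrt n + 1) * (Nat.sqrt n + 1) := Nat.lt_succ_sqrt n
    have h2 : Nat.sqrt n < (q n + 1) * (q n + 1) := Nat.lt_succ_sqrt _
    have h3 : Nat.sqrt n + 1 ≤ (q n + 1) * (q n + 1) := h2
    calc n < (Nat.sqrt n + 1) * (Nat.sqrt n + 1) := h1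
      _ ≤ ((q n + 1) * (q n + 1)) * ((q n + 1) * (q n + 1)) := Nat.mul_le_mul h3 h3
      _ = (q n + 1) ^ 4 := by ring
  have h1 := h.base q q hq hq
  -- width
  have h2 : Reach P (fun n => g (2 ^ q n) - q n) := by
    refine h.mono _ _ _ _ h1 (Eventually.of_forall fun _ => le_rfl) ?_
    filter_upwards [hq.eventually_ge_atTop 3, hq.eventually (eventually_pow_le 10)] with n hn3 hp
    have hn : n < (q n + 1) ^ 4 := hnq n
    set b := q n
    have e1 : (b + 1) ^ 4 ≤ b ^ 10 := by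
      have : (b + 1) ^ 4 ≤ (b ^ 2) ^ 4 := Nat.pow_le_pow_left (by nlinarith) 4
      refine this.trans ?_
      rw [← pow_mul]
      exact Nat.pow_le_pow_right (by omega) (by norm_num)
    have e2 : n + 1 ≤ 2 ^ b := by omega
    have e3 : n + 2 ^ b + 1 ≤ 2 ^ (b + 1) := by rw [pow_succ]; omega
    calc (n + 1) * (n + 2 ^ b + 1) ^ b ≤ 2 ^ b * (2 ^ (b + 1)) ^ b :=
          Nat.mul_le_mul e2 (Nat.pow_le_pow_left e3 b)
      _ = 2 ^ (b + (b + 1) * b) := by rw [← pow_mul, ← pow_add]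
      _ ≤ 2 ^ n := by
        apply Nat.pow_le_pow_right (by norm_num)
        refine le_trans ?_ (hqn n)
        have : b ^ 4 = b * b * (b * b) := by ring
        show b + (b + 1) * b ≤ b ^ 4
        rw [this]; nlinarith
  have h3 : Tendsto (fun n : ℕ => n ^ 4) atTop atTop := tendsto_pow_atTop (by norm_num)
  have h4 := Reach.step h h2 h3 (by
    filter_upwards [hq.eventually_ge_atTop 16, hq.eventually (eventually_pow_le 42)] with n hn3 hp
    have hn : n < (q n + 1) ^ 4 := hnq n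
    set b := q n
    have e1 : (b + 1) ^ 4 ≤ b ^ 8 := by
      have : (b + 1) ^ 4 ≤ (b ^ 2) ^ 4 := Nat.pow_le_pow_left (by nlinarith) 4
      refine this.trans ?_
      rw [← pow_mul]
    have e2 : n ≤ b ^ 8 := hn.le.trans e1
    have e3 : 2 ^ b ≤ g (2 ^ b) := hg.le_apply
    have e4 : (n ^ 4 + n + 2) * n ≤ 4 * n ^ 5 := by
      rcases Nat.eq_zero_or_pos n with h0 | h0
      · rw [h0]; norm_num
      · have f1 : n ^ 5 = n ^ 4 * n := by ring
        have f2 : n ≤ n ^ 4 := Nat.le_self_pow (by norm_num) n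
        have f3 : 1 ≤ n ^ 4 := Nat.one_le_pow _ _ h0
        rw [f1]; nlinarith [Nat.mul_le_mul_right n f2, Nat.mul_le_mul_right n f3]
    have e5 : n ^ 5 ≤ b ^ 40 := by
      calc n ^ 5 ≤ (b ^ 8) ^ 5 := Nat.pow_le_pow_left e2 5
        _ = b ^ 40 := by rw [← pow_mul]
    have e6 : 4 * b ^ 40 + b ≤ b ^ 42 := by
      have f1 : b ^ 42 = b ^ 40 * (b * b) := by ring
      have f2 : b ≤ b ^ 40 := Nat.le_self_pow (by norm_num) b
      have f3 : b ^ 40 * 5 ≤ b ^ 40 * (b * b) := Nat.mul_le_mul_left _ (by nlinarith)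
      rw [f1]; omega
    have e7 : 4 * n ^ 5 + b ≤ g (2 ^ b) := by omega
    omega)
  refine Reach.mono h h4 ?_
  filter_upwards [eventually_ge_atTop 2] with n hn
  have e2 : 2 ^ (n ^ 4) ≤ g (2 ^ (n ^ 4)) := hg.le_apply
  have e3 : 2 * n ^ 4 ≤ 2 ^ (n ^ 4) := by
    have hn4 : 1 ≤ n ^ 4 := Nat.one_le_pow _ _ (by omega)
    obtain ⟨c, hc⟩ := Nat.exists_eq_add_of_le hn4
    have : c < 2 ^ c := Nat.lt_two_pow_self
    rw [hc, Nat.add_comm 1 c, pow_succ]; omega
  omega

theorem reach_iterate (hg : StrictMono g) (h : LocCalc g P) (j : ℕ) :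
    Reach P (fun n => (fun m => g (2 ^ m))^[j] (n ^ 4)) ∧
      ∀ᶠ n in atTop, n ^ 4 ≤ (fun m => g (2 ^ m))^[j] (n ^ 4) := by
  induction j with
  | zero => exact ⟨reach_base hg h, Eventually.of_forall fun _ => le_rfl⟩
  | succ j ih =>
    have := Reach.iter hg h ih.1 ih.2
    simp only [Function.iterate_succ', Function.comp]
    exact this

/-- What is needed to code the members of `I f`. -/
theorem reach_final (hg : StrictMono g) (h : LocCalc g P) (f : ℕ → ℕ) (j : ℕ)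
    (hfg : ∀ᶠ n in atTop, f n ≤ (fun m => g (2 ^ m))^[j] (g n)) :
    Reach P (fun n => 2 ^ n * f (2 ^ (n * n))) := by
  obtain ⟨h1, h2⟩ := reach_iterate hg h (j + 1)
  refine Reach.mono h (Reach.mul hg h h1 h2) ?_
  have ht : Tendsto (fun n : ℕ => 2 ^ (n * n)) atTop atTop := by
    refine tendsto_atTop_mono (fun n => ?_) tendsto_id
    have e1 : n ≤ n * n := Nat.le_mul_self n
    exact (e1.trans_lt Nat.lt_two_pow_self).le
  filter_upwards [eventually_ge_atTop 1, ht.eventually hfg] with n hn hfn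
  apply Nat.mul_le_mul_left
  refine hfn.trans ?_
  have hm : Monotone (fun m => g (2 ^ m)) := fun a b hab =>
    hg.monotone (Nat.pow_le_pow_right (by norm_num) hab)
  have e1 : g (2 ^ (n * n)) ≤ g (2 ^ (n ^ 4)) := by
    apply hm
    have : n ^ 4 = n * n * (n * n) := by ring
    rw [this]
    exact Nat.le_mul_self _
  rw [Function.iterate_succ_apply]
  exact hm.iterate j e1

end Pool.Agent.W264.Yor
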