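import Pool.Agent.W264.Yor.Card

set_option autoImplicit false

/-!
Equalities with the invariants of `I_id`, and a set separating two of the ideals.
-/

namespace Pool.Agent.W264.Yor

open Filter Set MeasureTheory TopologicalSpace Cardinal
open Pool.Agent.H31R3.Yor
open scoped ENNReal

theorem strictMono_id' : StrictMono (fun n : ℕ => n) := fun _ _ h => h

theorem add_eq_id {f : ℕ → ℕ} (hf : StrictMono f) (j : ℕ)
    (h : ∀ᶠ n in atTop, f n ≤ (fun m => 2 ^ m)^[j] n) : add (I f) = add (I (fun n => n)) := by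
  apply le_antisymm
  · exact add_le_add strictMono_id' hf 0 (Eventually.of_forall fun n => by simpa using hf.le_apply)
  · exact add_le_add hf strictMono_id' j h

theorem cof_eq_id {f : ℕ → ℕ} (hf : StrictMono f) (j : ℕ)
    (h : ∀ᶠ n in atTop, f n ≤ (fun m => 2 ^ m)^[j] n) : cof (I f) = cof (I (fun n => n)) := by
  apply le_antisymm
  · exact cof_le_cof hf strictMono_id' j h
  · exact cof_le_cof strictMono_id' hf 0 (Eventually.of_forall fun n => by simpa using hf.le_apply)

theorem big_ineq : ∀ᶠ q : ℕ in atTop, ∀ m, 2 ^ (q / 2) ≤ m →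
    (q + 2 ^ q + 1) ^ q + m + 2 ≤ 2 ^ m := by
  have hhalf : Tendsto (fun n : ℕ => n / 2) atTop atTop :=
    Nat.tendsto_div_const_atTop (by norm_num)
  filter_upwards [hhalf.eventually (eventually_pow_le 3), eventually_ge_atTop 40] with q hq hq40 m hm
  have h1 : q + 1 ≤ 2 ^ q := Nat.lt_two_pow_self
  have h2 : q + 2 ^ q + 1 ≤ 2 ^ (q + 1) := by rw [pow_succ]; omega
  have h3 : (q + 2 ^ q + 1) ^ q ≤ 2 ^ ((q + 1) * q) := by
    rw [pow_mul]; exact Nat.pow_le_pow_left h2 q
  obtain ⟨r, hr⟩ : ∃ r, r = q / 2 := ⟨_, rfl⟩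
  rw [← hr] at hq hm
  have hr1 : q ≤ 2 * r + 1 := by omega
  have hr2 : 20 ≤ r := by omega
  have h4 : (q + 1) * q + 2 ≤ r ^ 3 := by
    have e1 : (q + 1) * q ≤ (2 * r + 2) * (2 * r + 1) := Nat.mul_le_mul (by omega) hr1
    have e2 : r ^ 3 = r * r * r := by ring
    have e3 : r * r * 20 ≤ r * r * r := Nat.mul_le_mul_left _ hr2
    rw [e2]; nlinarith
  have h5 : (q + 1) * q + 2 ≤ m := h4.trans (hq.trans hm)
  have h50 : 40 ≤ (q + 1) * q := by nlinarith
  obtain ⟨c, rfl⟩ : ∃ c, m = c + 1 := ⟨m - 1, by omega⟩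
  have h6 : 2 ^ ((q + 1) * q) ≤ 2 ^ c := Nat.pow_le_pow_right (by norm_num) (by omega)
  have h7 : c + 3 ≤ 2 ^ c := by
    obtain ⟨d, rfl⟩ : ∃ d, c = d + 3 := ⟨c - 3, by omega⟩
    have : d < 2 ^ d := Nat.lt_two_pow_self
    rw [pow_add]; omega
  rw [pow_succ]; omega

/-- The ideal of the exponential function is different from the ideal of the identity. -/
theorem I_two_pow_ne : I (fun n => 2 ^ n) ≠ I (fun n => n) := by
  intro heq
  let R : ℕ → ℕ := fun q => (q + 2 ^ q + 1) ^ q
  have hA : {z : K | ∃ᶠ q in atTop, q ∈ (univ : Set ℕ) ∧ ∀ i, q ≤ i → i < R q → z i = false} ∈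
      I (fun n => n) := by
    refine mem_I_of_pairs strictMono_id' (fun q => q) univ R (fun _ _ => false) ?_
    intro k
    filter_upwards [eventually_ge_atTop k] with q hq _
    exact Nat.pow_le_pow_right (Nat.succ_pos _) hq
  rw [← heq] at hA
  have hg : StrictMono (fun n : ℕ => 2 ^ n) := fun a b h =>
    Nat.pow_lt_pow_right (by norm_num) h
  obtain ⟨σ, N, hσ, hBσ, hN⟩ := exists_data hg hA
  obtain ⟨n1, c, hpos, hev⟩ := baire_cyl σ N hN
    (fun q => {z : K | ∀ i, q ≤ i → i < R q → z i = false}) (by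
      intro q
      exact isOpen_block q (R q) (fun _ => false)) (by
      refine Subset.trans ?_ hBσ
      intro z hz
      exact hz.mono fun q hq => ⟨mem_univ _, hq⟩)
  obtain ⟨mk, hmk⟩ := eventually_atTop.1 (hσ 1)
  have hhalf : Tendsto (fun n : ℕ => n / 2) atTop atTop :=
    Nat.tendsto_div_const_atTop (by norm_num)
  have hev2 : ∀ᶠ q : ℕ in atTop, False := by
    filter_upwards [tendsto_half tendsto_id hpos, eventually_ge_atTop n1,
      hhalf.eventually_ge_atTop mk, big_ineq, hev, eventually_ge_atTop 1]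
      with q hq hqi hqm hbig hevq hq1
    simp only [id] at hq
    obtain ⟨z, hz, hzav⟩ := exists_avoid σ N (2 ^ (q / 2)) q _ hq
    have hqV : q ≤ R q := by
      have h2 : q + 2 ^ q + 1 ≤ R q := Nat.le_self_pow (by omega) _
      have h3 : q ≤ q + 2 ^ q + 1 := by rw [Nat.add_assoc]; exact Nat.le_add_right _ _
      exact h3.trans h2
    have h1 := extend σ N (2 ^ (q / 2)) (2 ^ (q / 2)) q (R q) hqV z (fun _ => false)
      hzav (by
        intro m hm
        have h00 : q / 2 < 2 ^ (q / 2) := Nat.lt_two_pow_self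
        have h1 := hmk m (by omega)
        simp only [pow_one] at h1
        exact (hbig m hm).trans h1) (fun m h1 h2 _ => absurd h1 (not_le.2 h2))
    refine h1.ne' (measure_mono_null ?_ hevq)
    rintro w ⟨hw1, hw2⟩
    refine ⟨⟨?_, ?_⟩, hw2⟩
    · intro j hj
      have e1 := hz.1 j hj
      have e2 := hw1 j (by omega)
      rw [e1, ← e2]
      simp only [join, if_pos (show j < q by omega)]
    · intro j hj1 hj2
      have e2 := hw1 j hj2
      rw [← e2]
      simp only [join, if_neg (not_lt.2 hj1)]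
  exact hev2.exists.elim fun _ h => h

theorem all_add_iff : (∀ f : ℕ → ℕ, StrictMono f → add (I f) = add (I (fun n => n))) ↔
    add (I (fun n => n)) = add Nul := by
  constructor
  · intro h
    have : Nonempty {f : ℕ → ℕ // StrictMono f} := ⟨⟨fun n => n, fun _ _ h => h⟩⟩
    obtain ⟨f, hf⟩ := ciInf_mem (fun f : {f : ℕ → ℕ // StrictMono f} => add (I f))
    have h2 : add (I (f : ℕ → ℕ)) = minadd := hf
    rw [← h f f.2, h2, minadd_eq]
  · intro h f hf
    apply le_antisymm
    · exact add_le_add strictMono_id' hf 0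
        (Eventually.of_forall fun n => by simpa using hf.le_apply)
    · rw [h]; exact add_null_le hf

theorem all_cof_iff : (∀ f : ℕ → ℕ, StrictMono f → cof (I f) = cof (I (fun n => n))) ↔
    cof (I (fun n => n)) = cof Nul := by
  constructor
  · intro h
    have h1 : supcof = cof (I (fun n => n)) := by
      apply le_antisymm
      · exact ciSup_le' fun f => (h f f.2).le
      · exact le_supcof strictMono_id'
    rw [← h1, supcof_eq]
  · intro h f hf
    apply le_antisymm
    · rw [h]; exact cof_le_null hf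
    · exact cof_le_cof strictMono_id' hf 0
        (Eventually.of_forall fun n => by simpa using hf.le_apply)

end Pool.Agent.W264.Yor
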