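import Pool.Agent.W264.Yor.Step

set_option autoImplicit false

namespace Pool.Agent.W264.Yor

open Filter Set MeasureTheory TopologicalSpace
open Pool.Agent.H31R3.Yor
open scoped ENNReal

theorem isOpen_block (a R : ℕ) (y : K) : IsOpen {z : K | ∀ i, a ≤ i → i < R → z i = y i} := by
  have h1 : {z : K | ∀ i, a ≤ i → i < R → z i = y i} =
      ⋂ i ∈ Finset.Ico a R, (fun w : K => w i) ⁻¹' {y i} := by
    ext w
    simp only [mem_ofPred_eq, Finset.mem_Ico, mem_iInter, mem_preimage, mem_singleton_iff, and_imp]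
  rw [h1]
  exact (isClopen_biInter_finset fun i _ =>
    (isClopen_discrete _).preimage (continuous_apply i)).isOpen

theorem V_pos (n a ω : ℕ) : 0 < (n + 2 ^ a + 1) ^ ω := by positivity

/-- One step of localization through a single Yorioka ideal. -/
theorem base_step {g : ℕ → ℕ} (hg : StrictMono g) (a ω : ℕ → ℕ) (ha : Tendsto a atTop atTop)
    (hω : Tendsto ω atTop atTop) :
    ∃ (A : (ℕ → ℕ) → Set K) (S : Set K → ℕ → Finset ℕ),
      (∀ x, A x ∈ I g) ∧
      (∀ B n, (S B n).card ≤ (n + 1) * (n + 2 ^ a n + 1) ^ ω n) ∧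
      ∀ x : ℕ → ℕ, (∀ᶠ n in atTop, x n < 2 ^ (g (2 ^ a n) - a n)) → ∀ B ∈ I g, A x ⊆ B →
        ∀ᶠ n in atTop, x n ∈ S B n := by
  classical
  let V : ℕ → ℕ := fun n => (n + 2 ^ a n + 1) ^ ω n
  let R : ℕ → ℕ := fun n => g (V n)
  let E : ℕ → ℕ → Set K := fun n y => {z | ∀ i, a n ≤ i → i < R n → z i = y.testBit (i - a n)}
  have hEo : ∀ n y, IsOpen (E n y) := fun n y => isOpen_block _ _ (fun i => y.testBit (i - a n))
  let A : (ℕ → ℕ) → Set K := fun x => {z | ∃ᶠ q in atTop, q ∈ (univ : Set ℕ) ∧
    ∀ i, a q ≤ i → i < R q → z i = (x q).testBit (i - a q)}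
  have hA : ∀ x, A x ∈ I g := by
    intro x
    refine mem_I_of_pairs hg a univ R (fun q i => (x q).testBit (i - a q)) ?_
    intro k
    filter_upwards [hω.eventually_ge_atTop k] with q hq _
    exact hg.monotone (Nat.pow_le_pow_right (Nat.succ_pos _) hq)
  have hS : ∀ B : Set K, ∃ S : ℕ → Finset ℕ, (∀ n, (S n).card ≤ (n + 1) * V n) ∧
      (B ∈ I g → ∀ x : ℕ → ℕ, (∀ᶠ n in atTop, x n < 2 ^ (g (2 ^ a n) - a n)) → A x ⊆ B →
        ∀ᶠ n in atTop, x n ∈ S n) := by
    intro B
    by_cases hB : B ∈ I g
    swap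
    · exact ⟨fun _ => ∅, fun n => by simp, fun h => absurd h hB⟩
    obtain ⟨σ, N, hσ, hBσ, hN⟩ := exists_data hg hB
    set U := Un σ N with hUdef
    let C : ℕ → Set K := fun i => Cy i.unpair.1 (fun j => i.unpair.2.testBit j)
    let bad : ℕ → ℕ → Finset ℕ := fun i n =>
      (Finset.range (2 ^ (g (2 ^ a n) - a n))).filter (fun y => mu ((C i ∩ E n y) \ U) = 0)
    let t : ℕ → ℕ → Finset ℕ := fun i n => if (bad i n).card ≤ V n then bad i n else ∅
    have ht : ∀ i n, (t i n).card ≤ V n := by
      intro i n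
      by_cases h : (bad i n).card ≤ V n
      · simp only [t, if_pos h]; exact h
      · simp only [t, if_neg h, Finset.card_empty]; exact Nat.zero_le _
    refine ⟨fun n => (Finset.range (n + 1)).biUnion fun i => t i n, ?_, ?_⟩
    · intro n
      refine Finset.card_biUnion_le.trans ?_
      refine (Finset.sum_le_card_nsmul _ _ (V n) fun i _ => ht i n).trans ?_
      simp
    · intro _ x hx hAx
      obtain ⟨n1, c, hpos, hev⟩ := baire_cyl σ N hN (fun q => E q (x q)) (fun q => hEo _ _) (by
        refine Subset.trans ?_ (hAx.trans hBσ)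
        intro z hz
        exact hz.mono fun q hq => ⟨mem_univ _, hq⟩)
      -- the bound on the number of bad `y`
      have hbound : ∀ᶠ n in atTop, (bad (Nat.pair n1 c) n).card ≤ V n := by
        obtain ⟨m2, hm2⟩ := eventually_atTop.1 (hσ 2)
        obtain ⟨m4, hm4⟩ := eventually_atTop.1 (hσ 4)
        have hhalf : Tendsto (fun n => a n / 2) atTop atTop :=
          (Nat.tendsto_div_const_atTop (by norm_num)).comp ha
        filter_upwards [tendsto_half ha hpos, ha.eventually_ge_atTop n1, ha.eventually_ge_atTop 2,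
          ha.eventually_ge_atTop m2, hhalf.eventually_ge_atTop m4, hω.eventually_ge_atTop 1,
          ha.eventually_ge_atTop 3]
          with n hn han1 ha2 ham2 ham4 hω1 ha3
        obtain ⟨z, hz, hzav⟩ := exists_avoid σ N (2 ^ (a n / 2)) (a n) _ hn
        have hVa : 2 ^ a n ≤ V n := by
          have h1 : n + 2 ^ a n + 1 ≤ (n + 2 ^ a n + 1) ^ ω n := Nat.le_self_pow (by omega) _
          simp only [V]; omega
        have haV : a n < 2 ^ a n := Nat.lt_two_pow_self
        have haR : a n ≤ R n := by
          have h1 : V n ≤ g (V n) := hg.le_apply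
          simp only [R]; omega
        have hlen : ∀ m ≥ V n, R n + m + 2 ≤ (σ m).length := by
          intro m hm
          have h1 : g (m ^ 2) ≤ (σ m).length := hm2 m (by omega)
          have h3 : 3 ≤ m := by omega
          have h4 : V n ≤ m ^ 2 := by nlinarith
          have h2 := le_of_strictMono hg h4
          have h5 : m ^ 2 - V n ≥ m + 2 := by
            have : m + 2 + m ≤ m ^ 2 := by nlinarith
            omega
          simp only [R]; omega
        -- the killer of each bad `y`
        have hkill : ∀ y ∈ bad (Nat.pair n1 c) n, ∃ m, 2 ^ (a n / 2) ≤ m ∧ m < V n ∧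
            ¬ Inc (σ m) (join z (a n) (fun i => y.testBit (i - a n))) (R n) := by
          intro y hy
          by_contra hcon
          push Not at hcon
          have h1 := extend σ N (2 ^ (a n / 2)) (V n) (a n) (R n) haR z
            (fun i => y.testBit (i - a n)) hzav hlen (fun m hm1 hm2 _ => hcon m hm1 hm2)
          rw [Finset.mem_filter] at hy
          have h2 : Cy (R n) (join z (a n) (fun i => y.testBit (i - a n))) \ Un σ N ⊆
              (C (Nat.pair n1 c) ∩ E n y) \ U := by
            rintro w ⟨hw1, hw2⟩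
            refine ⟨⟨?_, ?_⟩, hw2⟩
            · simp only [C, Nat.unpair_pair]
              intro i hi
              have e1 := hz.1 i hi
              have e2 := hw1 i (by omega)
              rw [e1, ← e2]
              simp only [join, if_pos (show i < a n by omega)]
            · intro i hi1 hi2
              have e2 := hw1 i hi2
              rw [← e2]
              simp only [join, if_neg (not_lt.2 hi1)]
          exact absurd (measure_mono_null h2 hy.2) h1.ne'
        choose! m hm1 hm2' hm3 using hkill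
        have hcard : (bad (Nat.pair n1 c) n).card ≤ (Finset.range (V n)).card := by
          refine Finset.card_le_card_of_injOn m
            (fun y hy => Finset.mem_coe.2 (Finset.mem_range.2 (hm2' y hy))) ?_
          intro y hy y' hy' hmm
          have hyb := Finset.mem_range.1 (Finset.mem_filter.1 (Finset.mem_coe.1 hy)).1
          have hyb' := Finset.mem_range.1 (Finset.mem_filter.1 (Finset.mem_coe.1 hy')).1
          have hlong : g (2 ^ a n) ≤ (σ (m y)).length := by
            have h0 := hm1 y hy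
            have h00 : a n / 2 < 2 ^ (a n / 2) := Nat.lt_two_pow_self
            refine le_trans (hg.monotone ?_) (hm4 (m y) (by omega))
            have h5 : (2 ^ (a n / 2)) ^ 4 ≤ (m y) ^ 4 := Nat.pow_le_pow_left h0 4
            refine le_trans ?_ h5
            rw [← pow_mul]
            exact Nat.pow_le_pow_right (by norm_num) (by omega)
          have hgR : g (2 ^ a n) ≤ R n := hg.monotone hVa
          apply Nat.eq_of_testBit_eq
          intro i
          by_cases hi : i < g (2 ^ a n) - a n
          · have l1 : a n + i < (σ (m y)).length := by omega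
            have l1' : a n + i < (σ (m y')).length := by rw [← hmm]; exact l1
            have l2 : a n + i < R n := by omega
            have e1 : (σ (m y))[a n + i] = join z (a n) (fun i => y.testBit (i - a n)) (a n + i) := by
              by_contra hne
              exact hm3 y hy ⟨_, l2, l1, hne⟩
            have e2 : (σ (m y'))[a n + i] =
                join z (a n) (fun i => y'.testBit (i - a n)) (a n + i) := by
              by_contra hne
              exact hm3 y' hy' ⟨_, l2, l1', hne⟩
            have e3 : (σ (m y))[a n + i] = (σ (m y'))[a n + i] := by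
              simp only [hmm]
            rw [e1, e2] at e3
            simpa [join] using e3
          · rw [Nat.testBit_lt_two_pow (lt_of_lt_of_le hyb
              (Nat.pow_le_pow_right (by norm_num) (not_lt.1 hi)))]
            rw [Nat.testBit_lt_two_pow (lt_of_lt_of_le hyb'
              (Nat.pow_le_pow_right (by norm_num) (not_lt.1 hi)))]
        rwa [Finset.card_range] at hcard
      filter_upwards [hx, hev, hbound, eventually_ge_atTop (Nat.pair n1 c)] with n hxn hevn hbn hn
      rw [Finset.mem_biUnion]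
      refine ⟨Nat.pair n1 c, Finset.mem_range.2 (by omega), ?_⟩
      simp only [t, if_pos hbn]
      rw [Finset.mem_filter, Finset.mem_range]
      refine ⟨hxn, ?_⟩
      simp only [C, Nat.unpair_pair]
      exact hevn
  choose S hS1 hS2 using hS
  exact ⟨A, S, hA, hS1, fun x hx B hB hAx => hS2 B hB x hx hAx⟩

theorem pow_ineq (q n m : ℕ) (hq : 3 ≤ q) (hm : 2 ^ (q / 2) ≤ m) :
    (q + 2 ^ q + 1) ^ n + m + 2 ≤ m ^ (4 * (n + 1)) := by
  have h1 : q + 1 ≤ 2 ^ q := Nat.lt_two_pow_self
  have h2 : q + 2 ^ q + 1 ≤ 2 ^ (q + 1) := by rw [pow_succ]; omega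
  have h3 : (q + 2 ^ q + 1) ^ n ≤ 2 ^ ((q + 1) * n) := by
    rw [pow_mul]; exact Nat.pow_le_pow_left h2 n
  have h4 : 2 ^ ((q + 1) * n) ≤ m ^ (4 * n) := by
    have h5 : (2 ^ (q / 2)) ^ (4 * n) ≤ m ^ (4 * n) := Nat.pow_le_pow_left hm _
    refine le_trans ?_ h5
    rw [← pow_mul]
    apply Nat.pow_le_pow_right (by norm_num)
    have h6 : q + 1 ≤ q / 2 * 4 := by omega
    calc (q + 1) * n ≤ (q / 2 * 4) * n := Nat.mul_le_mul_right _ h6
      _ = q / 2 * (4 * n) := by ring
  have hm2 : 2 ≤ m := by
    have : 2 ^ 1 ≤ 2 ^ (q / 2) := Nat.pow_le_pow_right (by norm_num) (by omega)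
    omega
  have h7 : m ^ (4 * (n + 1)) = m ^ (4 * n) * m ^ 4 := by rw [← pow_add]; ring_nf
  rw [h7]
  set X := (q + 2 ^ q + 1) ^ n
  set Y := m ^ (4 * n)
  have hXY : X ≤ Y := h3.trans h4
  have hX : 1 ≤ X := Nat.one_le_pow _ _ (by omega)
  have hm4 : m + 3 ≤ m ^ 4 := by
    have : m ^ 4 = m * m * m * m := by ring
    rw [this]
    have h8 : 4 ≤ m * m := by nlinarith
    nlinarith
  calc X + m + 2 ≤ Y * (m + 3) := by nlinarith
    _ ≤ Y * m ^ 4 := Nat.mul_le_mul_left _ hm4

/-- Domination through a single Yorioka ideal. -/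
theorem dom_step {g : ℕ → ℕ} (hg : StrictMono g) :
    ∃ (A : (ℕ → ℕ) → Set K) (ψ : Set K → ℕ → ℕ), (∀ x, A x ∈ I g) ∧
      ∀ x : ℕ → ℕ, ∀ B ∈ I g, A x ⊆ B → ∀ᶠ n in atTop, x n ≤ ψ B n := by
  classical
  let X : (ℕ → ℕ) → ℕ → ℕ := fun x n => n + 1 + ∑ i ∈ Finset.range (n + 1), x i
  have hX : ∀ x, StrictMono (X x) := by
    intro x
    apply strictMono_nat_of_lt_succ
    intro n
    simp only [X]
    rw [Finset.sum_range_succ _ (n + 1)]
    omega
  have hXn : ∀ x n, n < X x n := fun x n => by simp only [X]; omega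
  have hXx : ∀ x n, x n ≤ X x n := fun x n => by
    simp only [X]
    have : x n ≤ ∑ i ∈ Finset.range (n + 1), x i :=
      Finset.single_le_sum (f := x) (fun i _ => Nat.zero_le _)
        (Finset.mem_range.2 (Nat.lt_succ_self n))
    omega
  let inv : (ℕ → ℕ) → ℕ → ℕ := fun x q => if h : ∃ n, X x n = q then h.choose else 0
  have hinv : ∀ x n, inv x (X x n) = n := by
    intro x n
    have h : ∃ n', X x n' = X x n := ⟨n, rfl⟩
    simp only [inv, dif_pos h]
    exact (hX x).injective h.choose_spec
  let V : ℕ → ℕ → ℕ := fun q n => (q + 2 ^ q + 1) ^ n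
  let E : ℕ → ℕ → Set K := fun q n => {z | ∀ i, q ≤ i → i < g (V q n) → z i = false}
  let L : (ℕ → ℕ) → ℕ → ℕ := fun x q => g (V q (inv x q))
  let A : (ℕ → ℕ) → Set K := fun x =>
    {z | ∃ᶠ q in atTop, q ∈ range (X x) ∧ ∀ i, q ≤ i → i < L x q → z i = false}
  have hA : ∀ x, A x ∈ I g := by
    intro x
    refine mem_I_of_pairs hg (fun q => q) (range (X x)) (L x) (fun _ _ => false) ?_
    intro k
    filter_upwards [eventually_ge_atTop (X x k)] with q hq hqX
    obtain ⟨n, rfl⟩ := hqX
    have hkn : k ≤ n := (hX x).le_iff_le.1 hq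
    simp only [L, hinv]
    exact hg.monotone (Nat.pow_le_pow_right (Nat.succ_pos _) hkn)
  have hψ : ∀ B : Set K, ∃ ψ : ℕ → ℕ, B ∈ I g → ∀ x : ℕ → ℕ, A x ⊆ B →
      ∀ᶠ n in atTop, x n ≤ ψ n := by
    intro B
    by_cases hB : B ∈ I g
    swap
    · exact ⟨fun _ => 0, fun h => absurd h hB⟩
    obtain ⟨σ, N, hσ, hBσ, hN⟩ := exists_data hg hB
    let C : ℕ → Set K := fun i => Cy i.unpair.1 (fun j => i.unpair.2.testBit j)
    have hkey : ∀ i n, ∃ q0, 1 ≤ n → 0 < mu (C i \ Un σ N) →
        ∀ q ≥ q0, 0 < mu ((C i ∩ E q n) \ Un σ N) := by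
      intro i n
      by_cases hpos : 0 < mu (C i \ Un σ N)
      swap
      · exact ⟨0, fun _ h => absurd h hpos⟩
      by_cases hn1 : 1 ≤ n
      swap
      · exact ⟨0, fun h => absurd h hn1⟩
      obtain ⟨mk, hmk⟩ := eventually_atTop.1 (hσ (4 * (n + 1)))
      have hhalf : Tendsto (fun n : ℕ => n / 2) atTop atTop :=
        Nat.tendsto_div_const_atTop (by norm_num)
      have hev : ∀ᶠ q in atTop, 0 < mu ((C i ∩ E q n) \ Un σ N) := by
        filter_upwards [tendsto_half tendsto_id hpos, eventually_ge_atTop i.unpair.1,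
          eventually_ge_atTop 3, hhalf.eventually_ge_atTop mk] with q hq hqi hq3 hqm
        simp only [id] at hq
        obtain ⟨z, hz, hzav⟩ := exists_avoid σ N (2 ^ (q / 2)) q _ hq
        have hqV : q ≤ g (V q n) := by
          have h1 : V q n ≤ g (V q n) := hg.le_apply
          have h2 : q + 2 ^ q + 1 ≤ V q n := Nat.le_self_pow (by omega) _
          have h3 : q ≤ q + 2 ^ q + 1 := by rw [Nat.add_assoc]; exact Nat.le_add_right _ _
          exact h3.trans (h2.trans h1)
        have h1 := extend σ N (2 ^ (q / 2)) (2 ^ (q / 2)) q (g (V q n)) hqV z (fun _ => false)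
          hzav (by
            intro m hm
            have h00 : q / 2 < 2 ^ (q / 2) := Nat.lt_two_pow_self
            have h1 : g (m ^ (4 * (n + 1))) ≤ (σ m).length := hmk m (by omega)
            have h2 := pow_ineq q n m hq3 hm
            have h3 := le_of_strictMono hg (u := V q n) (v := m ^ (4 * (n + 1)))
              (by simp only [V]; omega)
            simp only [V] at h3 ⊢
            omega) (fun m h1 h2 _ => absurd h1 (not_le.2 h2))
        refine lt_of_lt_of_le h1 (measure_mono ?_)
        rintro w ⟨hw1, hw2⟩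
        refine ⟨⟨?_, ?_⟩, hw2⟩
        · intro j hj
          have e1 := hz.1 j hj
          have e2 := hw1 j (by omega)
          rw [e1, ← e2]
          simp only [join, if_pos (show j < q by omega)]
        · intro j hj1 hj2
          have e2 := hw1 j hj2
          rw [← e2]
          simp only [join, if_neg (not_lt.2 hj1)]
      obtain ⟨q0, hq0⟩ := eventually_atTop.1 hev
      exact ⟨q0, fun _ _ => hq0⟩
    choose q0 hq0 using hkey
    refine ⟨fun n => (Finset.range (n + 1)).sup (fun i => q0 i n), fun _ x hAx => ?_⟩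
    obtain ⟨n1, c, hpos, hev⟩ := baire_cyl σ N hN
      (fun q => {z : K | q ∈ range (X x) ∧ ∀ i, q ≤ i → i < L x q → z i = false}) (by
        intro q
        by_cases h : q ∈ range (X x)
        · simp only [h, true_and]
          exact isOpen_block q (L x q) (fun _ => false)
        · simp only [h, false_and]
          exact isOpen_empty) (hAx.trans hBσ)
    obtain ⟨q1, hq1⟩ := eventually_atTop.1 hev
    filter_upwards [eventually_ge_atTop (Nat.pair n1 c), eventually_ge_atTop q1,
      eventually_ge_atTop 1] with n hn1 hn2 hn3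
    by_contra hcon
    push Not at hcon
    have h1 : q0 (Nat.pair n1 c) n ≤ X x n := by
      have h2 : q0 (Nat.pair n1 c) n ≤ (Finset.range (n + 1)).sup (fun i => q0 i n) :=
        Finset.le_sup (f := fun i => q0 i n) (Finset.mem_range.2 (by omega))
      exact h2.trans (hcon.le.trans (hXx x n))
    have hC : C (Nat.pair n1 c) = Cy n1 (fun j => c.testBit j) := by
      simp only [C, Nat.unpair_pair]
    have h3 := hq0 (Nat.pair n1 c) n hn3 (by rw [hC]; exact hpos) (X x n) h1
    have h4 := hq1 (X x n) (hn2.trans (hXn x n).le)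
    rw [hC] at h3
    refine absurd ?_ h3.ne'
    refine measure_mono_null ?_ h4
    rintro w ⟨⟨hw1, hw2⟩, hw3⟩
    refine ⟨⟨hw1, ⟨n, rfl⟩, ?_⟩, hw3⟩
    intro i hi1 hi2
    simp only [L, hinv] at hi2
    exact hw2 i hi1 hi2
  choose ψ hψ using hψ
  exact ⟨A, ψ, hA, fun x B hB hAx => hψ B hB x hAx⟩

end Pool.Agent.W264.Yor
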