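import Pool.Agent.H31R3.YorTukey

set_option autoImplicit false

/-!
One step of localization, and domination, through a single Yorioka ideal `I g`
(for an arbitrary strictly increasing `g`).
-/

namespace Pool.Agent.W264.Yor

open Filter Set MeasureTheory TopologicalSpace
open Pool.Agent.H31R3.Yor
open scoped ENNReal

theorem le_of_strictMono {g : ℕ → ℕ} (hg : StrictMono g) {u v : ℕ} (h : u ≤ v) :
    g u + (v - u) ≤ g v := by
  obtain ⟨d, rfl⟩ := Nat.exists_eq_add_of_le h
  rw [Nat.add_sub_cancel_left]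
  clear h
  induction d with
  | zero => simp
  | succ d ih =>
    have : g (u + d) < g (u + (d + 1)) := hg (by omega)
    omega

/-- Sets of points that follow a pattern on infinitely many blocks. -/
theorem mem_I_of_pairs {g : ℕ → ℕ} (hg : StrictMono g) (a : ℕ → ℕ)
    (P : Set ℕ) (L : ℕ → ℕ) (v : ℕ → K)
    (hL : ∀ k, ∀ᶠ q in atTop, q ∈ P → g ((q + 2 ^ a q + 1) ^ k) ≤ L q) :
    {z : K | ∃ᶠ q in atTop, q ∈ P ∧ ∀ i, a q ≤ i → i < L q → z i = v q i} ∈ I g := by
  classical
  let pt : ℕ → ℕ → K := fun c q i => if i < a q then c.testBit i else v q i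
  let σ : ℕ → List Bool := fun m =>
    if m.unpair.1 ∈ P ∧ m.unpair.2 < 2 ^ a m.unpair.1 then
      tk (pt m.unpair.2 m.unpair.1) (L m.unpair.1)
    else tk (fun _ => false) (g (m ^ m))
  refine ⟨σ, ?_, ?_⟩
  · intro k
    obtain ⟨q0, hq0⟩ := eventually_atTop.1 (hL (2 * k))
    let Bd : ℕ := (Finset.range q0).sup (fun q => Nat.pair q (2 ^ a q))
    filter_upwards [eventually_gt_atTop Bd, eventually_ge_atTop (max k 1)] with m hm hmk
    simp only [σ]
    by_cases h : m.unpair.1 ∈ P ∧ m.unpair.2 < 2 ^ a m.unpair.1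
    · rw [if_pos h, length_tk]
      set q := m.unpair.1
      set c := m.unpair.2
      have hmq : m = Nat.pair q c := (Nat.pair_unpair m).symm
      have hq : q0 ≤ q := by
        by_contra hcon
        push Not at hcon
        have h1 : Nat.pair q (2 ^ a q) ≤ Bd :=
          Finset.le_sup (f := fun q => Nat.pair q (2 ^ a q)) (Finset.mem_range.2 hcon)
        have h2 : Nat.pair q c < Nat.pair q (2 ^ a q) := Nat.pair_lt_pair_right q h.2
        omega
      refine le_trans (hg.monotone ?_) (hq0 q hq h.1)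
      rw [pow_mul]
      apply Nat.pow_le_pow_left
      have h1 : Nat.pair q c < (max q c + 1) ^ 2 := Nat.pair_lt_max_add_one_sq q c
      rw [← hmq] at h1
      refine h1.le.trans (Nat.pow_le_pow_left ?_ 2)
      have := h.2
      have h3 : max q c ≤ q + 2 ^ a q := max_le (by omega) (by omega)
      omega
    · rw [if_neg h, length_tk]
      apply hg.monotone
      exact Nat.pow_le_pow_right (le_trans (le_max_right _ _) hmk)
        (le_trans (le_max_left _ _) hmk)
  · intro z hz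
    rw [mem_ofPred_eq, frequently_atTop] at hz
    rw [Linf, mem_ofPred_eq, frequently_atTop]
    intro N
    obtain ⟨q, hqN, hqP, hzq⟩ := hz N
    obtain ⟨c, hc, hcz⟩ := exists_bits z (a q)
    refine ⟨Nat.pair q c, hqN.trans (Nat.left_le_pair q c), ?_⟩
    have hcond : (Nat.pair q c).unpair.1 ∈ P ∧
        (Nat.pair q c).unpair.2 < 2 ^ a (Nat.pair q c).unpair.1 := by
      rw [Nat.unpair_pair]; exact ⟨hqP, hc⟩
    simp only [σ, if_pos hcond, Nat.unpair_pair]
    apply pre_tk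
    intro i hi
    simp only [pt]
    by_cases hia : i < a q
    · rw [if_pos hia, hcz i hia]
    · rw [if_neg hia]
      exact (hzq i (not_lt.1 hia) hi).symm

/-! ### Cylinders -/

/-- the cylinder of points agreeing with `z` below `n` -/
def Cy (n : ℕ) (z : K) : Set K := {w | Agr n z w}

theorem cy_eq (n : ℕ) (z : K) : Cy n z = {w | Pre (tk z n) w} := by
  ext w
  constructor
  · intro h; exact pre_tk h
  · intro h i hi
    have hi' : i < (tk z n).length := by rw [length_tk]; exact hi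
    have := h i hi'
    simp only [tk, List.getElem_ofFn] at this
    exact this

theorem mu_cy (n : ℕ) (z : K) : mu (Cy n z) = (2⁻¹ : ℝ≥0∞) ^ n := by
  rw [cy_eq, mu_pre, length_tk]

theorem isClopen_cy (n : ℕ) (z : K) : IsClopen (Cy n z) := by
  have h1 : Cy n z = ⋂ i ∈ Finset.range n, (fun w : K => w i) ⁻¹' {z i} := by
    ext w
    simp only [Cy, Agr, mem_ofPred_eq, Finset.mem_range, mem_iInter, mem_preimage,
      mem_singleton_iff]
    exact ⟨fun h i hi => (h i hi).symm, fun h i hi => (h i hi).symm⟩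
  rw [h1]
  exact isClopen_biInter_finset fun i _ => (isClopen_discrete _).preimage (continuous_apply i)

theorem isClopen_pre (s : List Bool) : IsClopen {z : K | Pre s z} := by
  have h1 : {z : K | Pre s z} = Cy s.length (fun i => s.getD i false) := by
    ext w
    constructor
    · intro h i hi
      show s.getD i false = w i
      rw [List.getD_eq_getElem _ _ hi]; exact h i hi
    · intro h i hi
      have h2 : s.getD i false = w i := h i hi
      rw [List.getD_eq_getElem _ _ hi] at h2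
      exact h2
  rw [h1]; exact isClopen_cy _ _

/-- every open set containing `z` contains a cylinder around `z` -/
theorem exists_cy {V : Set K} (hV : IsOpen V) {z : K} (hz : z ∈ V) : ∃ n, Cy n z ⊆ V := by
  rw [isOpen_pi_iff] at hV
  obtain ⟨J, u, hu, hJ⟩ := hV z hz
  refine ⟨J.sup id + 1, fun w hw => hJ ?_⟩
  intro i hi
  have hi' : i ≤ J.sup id := Finset.le_sup (f := id) hi
  have : z i = w i := hw i (by omega)
  rw [← this]
  exact (hu i hi).2

/-- the union of the cylinders of the strings `σ m`, `m ≥ N` -/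
def Un (σ : ℕ → List Bool) (N : ℕ) : Set K := {z | ∃ m, N ≤ m ∧ Pre (σ m) z}

theorem isOpen_Un (σ : ℕ → List Bool) (N : ℕ) : IsOpen (Un σ N) := by
  have : Un σ N = ⋃ m, ⋃ (_ : N ≤ m), {z : K | Pre (σ m) z} := by
    ext z; simp [Un]
  rw [this]
  exact isOpen_iUnion fun m => isOpen_iUnion fun _ => (isClopen_pre _).2

/-- measure of a tail -/
theorem mu_Un_le (σ : ℕ → List Bool) (M R : ℕ) (h : ∀ m ≥ M, R + m + 2 ≤ (σ m).length) :
    mu (Un σ M) < (2⁻¹ : ℝ≥0∞) ^ R := by
  have h1 : mu (Un σ M) ≤ ∑' m : ℕ, (2⁻¹ : ℝ≥0∞) ^ (R + m + 2) := by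
    have e1 : Un σ M ⊆ ⋃ m, {z : K | M ≤ m ∧ Pre (σ m) z} := by
      rintro z ⟨m, hm, hz⟩
      exact mem_iUnion.2 ⟨m, hm, hz⟩
    refine (measure_mono e1).trans ((measure_iUnion_le _).trans (ENNReal.tsum_le_tsum fun m => ?_))
    by_cases hm : M ≤ m
    · refine (measure_mono (t := {z | Pre (σ m) z}) fun z hz => hz.2).trans ?_
      rw [mu_pre]
      exact pow_le_pow_right_of_le_one' (by simp) (h m hm)
    · have h3 : {z : K | M ≤ m ∧ Pre (σ m) z} = ∅ := by
        ext z; simp [hm]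
      rw [h3, measure_empty]; exact zero_le
  have h2 : ∑' m : ℕ, (2⁻¹ : ℝ≥0∞) ^ (R + m + 2) = (2⁻¹ : ℝ≥0∞) ^ R * 2⁻¹ := by
    have e : ∀ m : ℕ, (2⁻¹ : ℝ≥0∞) ^ (R + m + 2) =
        ((2⁻¹ : ℝ≥0∞) ^ R * (2⁻¹ * 2⁻¹)) * (2⁻¹ : ℝ≥0∞) ^ m := by
      intro m
      rw [pow_add, pow_add, pow_two]; ring
    simp only [e]
    rw [ENNReal.tsum_mul_left, ENNReal.tsum_geometric, ENNReal.one_sub_inv_two, inv_inv]
    rw [mul_assoc, mul_assoc, ENNReal.inv_mul_cancel (by simp) (by simp), mul_one]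
  refine lt_of_le_of_lt h1 ?_
  rw [h2]
  have h3 : (2⁻¹ : ℝ≥0∞) ^ R ≠ 0 := by
    exact (ENNReal.pow_pos (by simp) R).ne'
  have h4 : (2⁻¹ : ℝ≥0∞) ^ R ≠ ∞ := ENNReal.pow_ne_top (by simp)
  calc (2⁻¹ : ℝ≥0∞) ^ R * 2⁻¹ < (2⁻¹ : ℝ≥0∞) ^ R * 1 := by
        apply ENNReal.mul_lt_mul_right h3 h4
        simp
    _ = _ := mul_one _

/-! ### The Baire category argument -/

/-- A member `B ⊆ Linf σ` of the ideal cannot contain a limit superior of open sets, unless
almost all of these are null inside some cylinder, outside of the small open set `Un σ N`. -/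
theorem baire_cyl (σ : ℕ → List Bool) (N : ℕ) (hN : mu (Un σ N) < 1) (E : ℕ → Set K)
    (hE : ∀ q, IsOpen (E q)) (hsub : {z | ∃ᶠ q in atTop, z ∈ E q} ⊆ Linf σ) :
    ∃ n c : ℕ, 0 < mu (Cy n (fun i => c.testBit i) \ Un σ N) ∧
      ∀ᶠ q in atTop, mu ((Cy n (fun i => c.testBit i) ∩ E q) \ Un σ N) = 0 := by
  classical
  set U := Un σ N with hUdef
  have hU : IsOpen U := isOpen_Un σ N
  let ν : Measure K := mu.restrict Uᶜ
  let Q : Set K := ν.support
  have hQc : IsClosed Q := Measure.isClosed_support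
  have hQU : Q ⊆ Uᶜ := by
    have := Measure.support_restrict_subset (μ := mu) (s := Uᶜ)
    rw [hU.isClosed_compl.closure_eq] at this
    exact this.trans inter_subset_left
  have hν : ν ≠ 0 := by
    intro h
    have h2 : ν Set.univ = 0 := by rw [h]; rfl
    rw [Measure.restrict_apply_univ, prob_compl_eq_zero_iff hU.measurableSet] at h2
    exact absurd h2 hN.ne
  have hQne : Q.Nonempty := Measure.nonempty_support hν
  have hQcompl : ν Qᶜ = 0 := Measure.measure_compl_support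
  have hcomp : CompactSpace Q := isCompact_iff_compactSpace.1 hQc.isCompact
  have hne : Nonempty Q := hQne.to_subtype
  let W : ℕ → Set Q := fun m => {z | ∃ n, m ≤ n ∧ (z : K) ∈ E n}
  have hW : ∀ m, IsOpen (W m) := by
    intro m
    have : W m = ⋃ n, ⋃ (_ : m ≤ n), (fun z : Q => (z : K)) ⁻¹' E n := by
      ext z; simp [W]
    rw [this]
    exact isOpen_iUnion fun n => isOpen_iUnion fun _ =>
      (hE n).preimage continuous_subtype_val
  obtain ⟨m, hm⟩ : ∃ m, ¬ Dense (W m) := by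
    by_contra hcon
    push Not at hcon
    obtain ⟨z, hz⟩ := (dense_iInter_of_isOpen_nat hW hcon).nonempty
    rw [mem_iInter] at hz
    have h1 : (z : K) ∈ {z | ∃ᶠ q in atTop, z ∈ E q} := by
      show ∃ᶠ n in atTop, (z : K) ∈ E n
      rw [frequently_atTop]
      intro m
      obtain ⟨n, hn, hn2⟩ := hz m
      exact ⟨n, hn, hn2⟩
    have h2 : ∃ᶠ n in atTop, Pre (σ n) (z : K) := hsub h1
    obtain ⟨n, hn, hn2⟩ := (frequently_atTop.1 h2) N
    exact hQU z.2 ⟨n, hn, hn2⟩
  rw [dense_iff_inter_open] at hm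
  push Not at hm
  obtain ⟨V, hV, ⟨z, hz⟩, hVW⟩ := hm
  obtain ⟨V', hV', rfl⟩ := isOpen_induced_iff.1 hV
  obtain ⟨n, hn⟩ := exists_cy hV' (show (z : K) ∈ V' from hz)
  obtain ⟨c, -, hc⟩ := exists_bits (z : K) n
  have hcy : Cy n (fun i => c.testBit i) = Cy n (z : K) := by
    ext w
    exact ⟨fun h i hi => (hc i hi).symm.trans (h i hi), fun h i hi => (hc i hi).trans (h i hi)⟩
  refine ⟨n, c, ?_, ?_⟩
  · rw [hcy]
    have h1 : 0 < ν (Cy n (z : K)) :=
      (Measure.mem_support_iff_forall (z : K)).1 z.2 _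
        ((isClopen_cy n _).isOpen.mem_nhds (Agr.refl _ _))
    rw [Measure.restrict_apply (isClopen_cy n _).isOpen.measurableSet] at h1
    exact h1
  · filter_upwards [eventually_ge_atTop m] with q hq
    rw [hcy]
    have h1 : Cy n (z : K) ∩ E q ⊆ Qᶜ := by
      rintro w ⟨hw1, hw2⟩ hw3
      have h5 : (⟨w, hw3⟩ : Q) ∈ (Subtype.val ⁻¹' V' ∩ W m : Set Q) := ⟨hn hw1, q, hq, hw2⟩
      rw [hVW] at h5
      exact h5
    have h2 : ν (Cy n (z : K) ∩ E q) = 0 := measure_mono_null h1 hQcompl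
    rw [Measure.restrict_apply ((isClopen_cy n _).isOpen.inter (hE q)).measurableSet] at h2
    exact h2

/-- a point of `C \ U` whose restriction to `a` avoids all strings with index in `[N, M)` -/
theorem exists_avoid (σ : ℕ → List Bool) (N M a : ℕ) (C : Set K)
    (h : (M : ℝ≥0∞) * (2⁻¹ : ℝ≥0∞) ^ a < mu (C \ Un σ N)) :
    ∃ z ∈ C \ Un σ N, ∀ m, N ≤ m → m < M → Inc (σ m) z a := by
  classical
  by_contra hcon
  push Not at hcon
  have h1 : C \ Un σ N ⊆ ⋃ m ∈ Finset.range M, Cy a (fun i => (σ m).getD i false) := by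
    intro z hz
    obtain ⟨m, hm1, hm2, hm3⟩ := hcon z hz
    rw [mem_iUnion₂]
    refine ⟨m, Finset.mem_range.2 hm2, ?_⟩
    have h2 : ¬ Pre (σ m) z := fun hp => hz.2 ⟨m, hm1, hp⟩
    unfold Pre at h2
    push Not at h2
    obtain ⟨i, hi, hne⟩ := h2
    have hia : a ≤ i := by
      by_contra hlt
      push Not at hlt
      exact hm3 ⟨i, hlt, hi, hne⟩
    intro j hj
    have hj' : j < (σ m).length := by omega
    show (σ m).getD j false = z j
    rw [List.getD_eq_getElem _ _ hj']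
    by_contra hne'
    exact hm3 ⟨j, hj, hj', hne'⟩
  have h2 : mu (C \ Un σ N) ≤ (M : ℝ≥0∞) * (2⁻¹ : ℝ≥0∞) ^ a := by
    refine (measure_mono h1).trans ((measure_biUnion_finset_le _ _).trans ?_)
    simp only [mu_cy]
    rw [Finset.sum_const, Finset.card_range, nsmul_eq_mul]
  exact absurd h (not_lt.2 h2)

/-- `z` below `a`, then the pattern `y` -/
def join (z : K) (a : ℕ) (y : K) : K := fun i => if i < a then z i else y i

theorem agr_join (z : K) (a : ℕ) (y : K) : Agr a z (join z a y) := by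
  intro i hi
  simp [join, hi]

/-- extension step -/
theorem extend (σ : ℕ → List Bool) (N M M' a R : ℕ) (haR : a ≤ R) (z y : K)
    (hz : ∀ m, N ≤ m → m < M → Inc (σ m) z a)
    (hlen : ∀ m ≥ M', R + m + 2 ≤ (σ m).length)
    (hinc : ∀ m, M ≤ m → m < M' → N ≤ m → Inc (σ m) (join z a y) R) :
    0 < mu (Cy R (join z a y) \ Un σ N) := by
  by_contra hcon
  have h0 : mu (Cy R (join z a y) \ Un σ N) = 0 := le_antisymm (not_lt.1 hcon) zero_le
  have h1 : Cy R (join z a y) ∩ Un σ N ⊆ Un σ M' := by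
    rintro w ⟨hw1, m, hm, hw2⟩
    by_contra hw3
    have hmM' : m < M' := by
      by_contra h
      exact hw3 ⟨m, not_lt.1 h, hw2⟩
    rcases lt_or_ge m M with h | h
    · exact (((hz m hm h).congr (agr_join z a y)).mono haR |>.congr hw1).not_pre hw2
    · exact ((hinc m h hmM' hm).congr hw1).not_pre hw2
  have h2 : mu (Cy R (join z a y)) ≤ mu (Cy R (join z a y) \ Un σ N) + mu (Un σ M') := by
    refine (measure_mono (t := (Cy R (join z a y) \ Un σ N) ∪ Un σ M') ?_).trans
      (measure_union_le _ _)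
    intro w hw
    by_cases h : w ∈ Un σ N
    · exact Or.inr (h1 ⟨hw, h⟩)
    · exact Or.inl ⟨hw, h⟩
  rw [h0, zero_add, mu_cy] at h2
  exact absurd h2 (not_le.2 (mu_Un_le σ M' R hlen))

theorem tendsto_half {a : ℕ → ℕ} (ha : Tendsto a atTop atTop) {δ : ℝ≥0∞} (hδ : 0 < δ) :
    ∀ᶠ n in atTop, ((2 ^ (a n / 2) : ℕ) : ℝ≥0∞) * (2⁻¹ : ℝ≥0∞) ^ a n < δ := by
  have h1 : Tendsto (fun n : ℕ => (2⁻¹ : ℝ≥0∞) ^ n) atTop (nhds 0) :=
    ENNReal.tendsto_pow_atTop_nhds_zero_of_lt_one (by simp)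
  have h2 : Tendsto (fun n => a n / 2) atTop atTop :=
    (Nat.tendsto_div_const_atTop (by norm_num)).comp ha
  filter_upwards [(h1.comp h2).eventually (gt_mem_nhds hδ)] with n hn
  refine lt_of_le_of_lt ?_ hn
  simp only [Function.comp]
  have h3 : a n / 2 + a n / 2 ≤ a n := by omega
  have h4 : (2⁻¹ : ℝ≥0∞) ^ a n ≤ (2⁻¹ : ℝ≥0∞) ^ (a n / 2 + a n / 2) :=
    pow_le_pow_right_of_le_one' (by simp) h3
  refine (mul_le_mul_right h4 _).trans ?_
  rw [pow_add, ← mul_assoc, Nat.cast_pow, Nat.cast_ofNat, ← mul_pow,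
    ENNReal.mul_inv_cancel (by simp) (by simp), one_pow, one_mul]

/-- data for a member of `I g` -/
theorem exists_data {g : ℕ → ℕ} (hg : StrictMono g) {B : Set K} (hB : B ∈ I g) :
    ∃ (σ : ℕ → List Bool) (N : ℕ), FarBelow g (fun n => (σ n).length) ∧ B ⊆ Linf σ ∧
      mu (Un σ N) < 1 := by
  obtain ⟨σ, hσ, hBσ⟩ := hB
  obtain ⟨m2, hm2⟩ := eventually_atTop.1 (hσ 2)
  refine ⟨σ, max m2 3, hσ, hBσ, ?_⟩
  have := mu_Un_le σ (max m2 3) 0 (by
    intro m hm
    have h1 : g (m ^ 2) ≤ (σ m).length := hm2 m (le_trans (le_max_left _ _) hm)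
    have h2 : m ^ 2 ≤ g (m ^ 2) := hg.le_apply
    have h3 : 3 ≤ m := le_trans (le_max_right _ _) hm
    nlinarith)
  simpa using this

end Pool.Agent.W264.Yor
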